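import Mathlib
import Pool.Agent.TH876.KR.Def

set_option autoImplicit false

/-!
# Counting points with small radical with a general exponent

`Adm e c X x`: the points to which the method of `TH876/KR` applies with exponent `e`.
-/

namespace Pool.Agent.TH876.GR

open NumberField IsDedekindDomain Finset Pool.Agent.H691R3 Pool.Agent.TH876.Loc
open Pool.Agent.TH876.KR (side rr aw Sc Light InP)

variable {K : Type} [Field K] [NumberField K]

/-- `S` is a good set of prescribed primes for `x` -/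
def GoodSet (k : ℕ) (S : Finset (Pr K)) (x : K) : Prop :=
  Light k S x ∨ ∃ (A B C : Fin 3) (p : Pr K), A ≠ B ∧ B ≠ C ∧ A ≠ C ∧ InP k S A B C x p

/-- the radical of `x` is at most `exp c * X`, two sides have radical at most `exp c * X ^ e`
together, and for every `k` there is a good set with product of the norms at most
`exp c * X ^ (e + 1/k)` -/
structure Adm (e c X : ℝ) (x : K) : Prop where
  pt : Pt x
  rad : Real.log (nn (sp x)) ≤ Real.log X + c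
  two : ∃ i j : Fin 3, i ≠ j ∧ rr i x + rr j x ≤ e * Real.log X + c
  good : ∀ k : ℕ, 3 ≤ k → 0 < hgt x → ∃ S : Finset (Pr K), GoodSet k S x ∧
    ∑ v ∈ S, Real.log (Nv v) ≤ (e + 1 / (k : ℝ)) * Real.log X + c

variable (K) in
/-- the bound at one scale -/
def ScaleBound (e c : ℝ) : Prop := ∀ k : ℕ, 3 ≤ k → ∀ η : ℝ, 0 < η → ∃ D : ℝ, 0 < D ∧ ∃ L0 : ℝ,
  3 ≤ L0 ∧ ∀ X : ℝ, 1 ≤ X → L0 ≤ Real.log X → ∀ l : ℝ, Real.log X ^ (2 + η) ≤ l → l ≤ X →
    ∀ F : Finset K, (∀ x ∈ F, Adm e c X x ∧ Sc k l x) →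
    (F.card : ℝ) ≤ D * X ^ (e + 4 / (k : ℝ)) * l

variable (K) in
/-- points of small height -/
def SmallBound (e c : ℝ) : Prop := ∀ ε : ℝ, 0 < ε → ∃ η : ℝ, 0 < η ∧ ∃ L1 : ℝ, 1 ≤ L1 ∧
  ∃ C : ℝ, 0 < C ∧ ∀ X : ℝ, 1 ≤ X → L1 ≤ Real.log X → ∀ F : Finset K,
      (∀ x ∈ F, Adm e c X x ∧ hgt x ≤ Real.log X ^ (2 + η)) →
      (F.card : ℝ) ≤ C * X ^ (e + ε)

variable (K) in
/-- the count -/
def MainBound (e c : ℝ) : Prop := ∀ ε : ℝ, 0 < ε → ∃ C : ℝ, 0 < C ∧ ∀ X H : ℝ, 1 ≤ X → 1 ≤ H →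
    ∀ F : Finset K, (∀ x ∈ F, Adm e c X x ∧ hgt x ≤ H) →
      (F.card : ℝ) ≤ C * H * X ^ (e + ε)

end Pool.Agent.TH876.GR
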