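import Mathlib
import Pool.Agent.TH876.KR.Fin
import Pool.Agent.TH876.GR.Def

set_option autoImplicit false
set_option linter.unusedSectionVars false

/-!
# The final statement on `S`-integral points (general number of points)
-/

namespace Pool.Agent.TH876.GR

open NumberField IsDedekindDomain Finset Pool.Agent.H691R3 Pool.Agent.TH876.Loc
open Pool.Agent.TH876.KR (side rr aw Sc Light InP)

variable {K : Type} [Field K] [NumberField K]

/-- the truncated counting function of `x` relative to the points `a 0, ..., a (q - 1)`: the sum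
of `log N(v)` over the primes `v` outside `S` with `x ≡ a i` modulo `v` for some `i` -/
noncomputable def counting (S : Set (HeightOneSpectrum (𝓞 K))) {q : ℕ} (a : Fin q → K) (x : K) : ℝ :=
  ∑ᶠ v ∈ {v : HeightOneSpectrum (𝓞 K) | v ∉ S ∧ ∃ i, v.valuation K (x - a i) < 1},
    Real.log (Ideal.absNorm v.asIdeal : ℝ)

/-- the `S`-integral elements `x` of height at most `H`, different from the `a i`, with
`exp N^(1)_S(a, x) ≤ X` -/
def Points (S : Set (HeightOneSpectrum (𝓞 K))) {q : ℕ} (a : Fin q → K) (X H : ℝ) : Set K :=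
  {x | (∀ v, v ∉ S → v.valuation K x ≤ 1) ∧ (∀ i, x ≠ a i) ∧
    Real.exp (counting S a x) ≤ X ∧ Height.logHeight₁ x ≤ H}

private theorem fin_val_eq (v : Pr K) (x : K) :
    fv v x = ((WithZeroMulInt.toNNReal (NumberField.HeightOneSpectrum.absNorm_ne_zero v)
      (v.valuation K x) : NNReal) : ℝ) :=
  NumberField.FinitePlace.norm_embedding' (v := v) (x := x)

private theorem fin_lt_one (v : Pr K) (x : K) : v.valuation K x < 1 ↔ fv v x < 1 := by
  rw [fin_val_eq, NNReal.coe_lt_one]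
  exact (WithZeroMulInt.toNNReal_lt_one_iff
    (NumberField.HeightOneSpectrum.one_lt_absNorm_nnreal v)).symm

private theorem fin_le_one (v : Pr K) (x : K) : v.valuation K x ≤ 1 ↔ fv v x ≤ 1 := by
  rw [fin_val_eq, NNReal.coe_le_one]
  exact (WithZeroMulInt.toNNReal_le_one_iff
    (NumberField.HeightOneSpectrum.one_lt_absNorm_nnreal v)).symm

/-- two of `q` nonnegative numbers are small -/
private theorem fin_two_small {q : ℕ} (hq : 2 ≤ q) (l : Fin q → ℝ) (B : ℝ) (h : ∑ i, l i ≤ B) :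
    ∃ s : Fin q, l s + l (finRotate q s) ≤ 2 / q * B := by
  have hq0 : (0 : ℝ) < q := by exact_mod_cast (by omega : 0 < q)
  have : Nonempty (Fin q) := ⟨⟨0, by omega⟩⟩
  by_contra hcon
  push Not at hcon
  have h1 : ∑ s : Fin q, (2 / q * B) < ∑ s : Fin q, (l s + l (finRotate q s)) :=
    Finset.sum_lt_sum_of_nonempty Finset.univ_nonempty fun s _ => hcon s
  rw [Finset.sum_add_distrib, Equiv.sum_comp (finRotate q) l, Finset.sum_const, Finset.card_univ,
    Fintype.card_fin, nsmul_eq_mul] at h1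
  have h3 : (q : ℝ) * (2 / q * B) = 2 * B := by field_simp
  rw [h3] at h1
  linarith

private theorem fin_rotate_ne {q : ℕ} (hq : 2 ≤ q) (s : Fin q) : s ≠ finRotate q s := by
  obtain ⟨n, rfl⟩ : ∃ n, q = n + 1 := ⟨q - 1, by omega⟩
  intro h
  have h1 : (finRotate (n + 1) s : Fin (n + 1)) = s + 1 := finRotate_apply _
  rw [h1] at h
  have h2 := congrArg (fun z : Fin (n + 1) => (z : ℕ)) h
  simp only [Fin.val_add] at h2
  have h3 : ((1 : Fin (n + 1)) : ℕ) = 1 := by
    rw [Fin.val_one']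
    exact Nat.mod_eq_of_lt (by omega)
  rw [h3] at h2
  have h4 := s.isLt
  by_cases h5 : (s : ℕ) + 1 < n + 1
  · rw [Nat.mod_eq_of_lt h5] at h2
    omega
  · have h6 : (s : ℕ) + 1 = n + 1 := by omega
    rw [h6, Nat.mod_self] at h2
    omega

/-- the affine coordinate -/
private noncomputable def fin_t (b c x : K) : K := (x - b) / (b - c)

private theorem fin_t_add {b c : K} (h : b ≠ c) (x : K) : fin_t b c x + 1 = (x - c) / (b - c) := by
  unfold fin_t
  have : b - c ≠ 0 := sub_ne_zero.2 h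
  field_simp
  ring

private theorem fin_Pt {b c x : K} (h : b ≠ c) (hb : x ≠ b) (hc : x ≠ c) : Pt (fin_t b c x) := by
  have h1 : b - c ≠ 0 := sub_ne_zero.2 h
  refine ⟨div_ne_zero (sub_ne_zero.2 hb) h1, ?_⟩
  rw [fin_t_add h]
  exact div_ne_zero (sub_ne_zero.2 hc) h1

private theorem fin_inj {b c x y : K} (h : b ≠ c) (hxy : fin_t b c x = fin_t b c y) : x = y := by
  have h1 : b - c ≠ 0 := sub_ne_zero.2 h
  unfold fin_t at hxy
  rw [div_left_inj' h1] at hxy
  exact sub_left_injective hxy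

/-- the matrix of the three forms -/
private def fin_mat (b c : K) : Fin 3 × Fin 2 → K :=
  fun p => ![![1, -b], ![0, b - c], ![-1, c]] p.1 p.2

private theorem fin_hgt {b c x : K} (h : b ≠ c) (hb : x ≠ b) (hc : x ≠ c) :
    hgt (fin_t b c x) ≤ (Height.totalWeight K * Real.log 2 + Height.logHeight (fin_mat b c)) +
      Height.logHeight₁ x := by
  refine (KR.hgt_le_logHeight (fin_Pt h hb hc)).trans ?_
  have h0 : b - c ≠ 0 := sub_ne_zero.2 h
  have h1 : (fun i : Fin 3 => L i (fin_t b c x)) =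
      (b - c)⁻¹ • (fun i : Fin 3 => ∑ j, fin_mat b c (i, j) * ![x, 1] j) := by
    funext i
    rw [Pi.smul_apply, smul_eq_mul, Fin.sum_univ_two]
    unfold fin_mat L fin_t
    fin_cases i
    · simp
      field_simp
      ring
    · simp
      field_simp
    · simp
      field_simp
      ring
  rw [h1, Height.logHeight_smul_eq_logHeight _ (inv_ne_zero h0), Height.logHeight₁_eq_logHeight]
  refine (Height.logHeight_linearMap_apply_le (fin_mat b c) ![x, 1]).trans ?_
  rw [Nat.card_eq_fintype_card, Fintype.card_fin]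
  push_cast
  exact le_rfl

/-- the bad primes -/
private theorem fin_bad (S : Set (Pr K)) (hS : S.Finite) {q : ℕ} (a : Fin q → K)
    (ha : Function.Injective a) :
    ∃ T : Finset (Pr K), ∀ v, v ∉ T → v ∉ S ∧ (∀ i, fv v (a i) ≤ 1) ∧
      ∀ i j, i ≠ j → fv v (a i - a j) = 1 := by
  classical
  have h1 : (⋃ i, {v : Pr K | ¬ fv v (a i) ≤ 1}).Finite := by
    refine Set.finite_iUnion fun i => ?_
    by_cases hi : a i = 0
    · refine Set.Finite.subset Set.finite_empty ?_
      intro v hv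
      rw [Set.mem_ofPred_eq, hi, map_zero] at hv
      exact absurd zero_le_one hv
    · refine (fv_support_finite hi).subset ?_
      intro v hv h
      exact hv (le_of_eq h)
  have h2 : (⋃ p : Fin q × Fin q, {v : Pr K | p.1 ≠ p.2 ∧ fv v (a p.1 - a p.2) ≠ 1}).Finite := by
    refine Set.finite_iUnion fun p => ?_
    by_cases hp : p.1 = p.2
    · refine Set.Finite.subset Set.finite_empty ?_
      intro v hv
      exact absurd hp hv.1
    · exact (fv_support_finite (sub_ne_zero.2 (fun h => hp (ha h)))).subset fun v hv => hv.2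
  refine ⟨(hS.union (h1.union h2)).toFinset, ?_⟩
  intro v hv
  rw [Set.Finite.mem_toFinset] at hv
  refine ⟨fun h => hv (Or.inl h), ?_, ?_⟩
  · intro i
    by_contra h
    exact hv (Or.inr (Or.inl (Set.mem_iUnion.2 ⟨i, h⟩)))
  · intro i j hij
    by_contra h
    exact hv (Or.inr (Or.inr (Set.mem_iUnion.2 ⟨(i, j), hij, h⟩)))

/-- the choice of two of the points -/
private theorem fin_index {q : ℕ} (hq : 2 ≤ q) (S : Set (Pr K)) {a : Fin q → K}
    (ha : Function.Injective a) (T : Finset (Pr K))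
    (hT : ∀ v, v ∉ T → v ∉ S ∧ (∀ i, fv v (a i) ≤ 1) ∧ ∀ i j, i ≠ j → fv v (a i - a j) = 1)
    {x : K} (hxS : ∀ v, v ∉ S → v.valuation K x ≤ 1) (hx : ∀ i, x ≠ a i) {X : ℝ} (hX : 1 ≤ X)
    (h : Real.exp (counting S a x) ≤ X) :
    ∃ s : Fin q, side 1 (fin_t (a s) (a (finRotate q s)) x) ⊆ T ∧
      ∀ T' : Finset (Pr K), (∀ v ∈ T', v ∈ sp (fin_t (a s) (a (finRotate q s)) x) ∧ v ∉ T) →
        nn T' ≤ X ^ (2 / (q : ℝ)) := by
  classical
  have hX0 : 0 < X := by linarith
  set I : Set (Pr K) := {v | v ∉ S ∧ ∃ i, v.valuation K (x - a i) < 1} with hIdef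
  have hI : I.Finite := by
    have h1 : (⋃ i, {v : Pr K | fv v (x - a i) ≠ 1}).Finite :=
      Set.finite_iUnion fun i => fv_support_finite (sub_ne_zero.2 (hx i))
    refine h1.subset ?_
    rintro v ⟨_, i, hi⟩
    rw [fin_lt_one] at hi
    exact Set.mem_iUnion.2 ⟨i, hi.ne⟩
  set J := hI.toFinset with hJ
  have hcount : counting S a x = Real.log (nn J) := by
    unfold counting
    rw [KR.log_nn, ← finsum_mem_coe_finset, hJ, Set.Finite.coe_toFinset]
    rfl
  have hnnJ : Real.log (nn J) ≤ Real.log X := by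
    rw [hcount] at h
    exact (Real.le_log_iff_exp_le hX0).2 h
  have hlogpos : ∀ v : Pr K, 0 ≤ Real.log (Nv v) := fun v => (KR.log_Nv_pos' v).le
  set si : Fin q → Finset (Pr K) := fun i => (J \ T).filter fun v => fv v (x - a i) < 1 with hsi
  have hdisj : ∀ i ∈ (Finset.univ : Finset (Fin q)), ∀ j ∈ (Finset.univ : Finset (Fin q)), i ≠ j →
      Disjoint (si i) (si j) := by
    intro i _ j _ hij
    rw [Finset.disjoint_left]
    intro v hi hj
    rw [hsi, Finset.mem_filter, Finset.mem_sdiff] at hi hj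
    have hg := (hT v hi.1.2).2.2 i j hij
    have e : a i - a j = (x - a j) - (x - a i) := by ring
    have h3 := KR.fv_sub_le v (x - a j) (x - a i)
    rw [← e, hg] at h3
    exact absurd h3 (not_le.2 (max_lt hj.2 hi.2))
  have hsum : ∑ i, Real.log (nn (si i)) ≤ Real.log X := by
    refine le_trans ?_ hnnJ
    have h1 : ∑ i, Real.log (nn (si i)) = ∑ v ∈ Finset.univ.biUnion si, Real.log (Nv v) := by
      rw [Finset.sum_biUnion hdisj]
      exact Finset.sum_congr rfl fun i _ => KR.log_nn (si i)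
    rw [h1, KR.log_nn]
    refine Finset.sum_le_sum_of_subset_of_nonneg ?_ fun v _ _ => hlogpos v
    intro v hv
    obtain ⟨i, _, hi⟩ := Finset.mem_biUnion.1 hv
    exact (Finset.mem_sdiff.1 (Finset.mem_filter.1 hi).1).1
  obtain ⟨s, hs⟩ := fin_two_small hq (fun i => Real.log (nn (si i))) _ hsum
  have hne := fin_rotate_ne hq s
  refine ⟨s, ?_⟩
  set i := s with hi
  set j := finRotate q s with hj
  have hab : a i ≠ a j := fun h => hne (ha h)
  have hPt := fin_Pt hab (hx i) (hx j)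
  -- the absolute values outside `T`
  have key : ∀ v, v ∉ T → fv v (fin_t (a i) (a j) x) = fv v (x - a i) ∧
      fv v (fin_t (a i) (a j) x + 1) = fv v (x - a j) ∧ fv v (x - a i) ≤ 1 ∧
      fv v (x - a j) ≤ 1 := by
    intro v hv
    obtain ⟨hvS, h1, h2⟩ := hT v hv
    have h3 := h2 i j hne
    have h4 := (fin_le_one v x).1 (hxS v hvS)
    refine ⟨?_, ?_, ?_, ?_⟩
    · unfold fin_t
      rw [map_div₀, h3, div_one]
    · rw [fin_t_add hab, map_div₀, h3, div_one]
    · exact (KR.fv_sub_le v _ _).trans (max_le h4 (h1 i))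
    · exact (KR.fv_sub_le v _ _).trans (max_le h4 (h1 j))
  constructor
  · intro v hv
    by_contra hvT
    obtain ⟨k1, k2, k3, k4⟩ := key v hvT
    have h5 := (KR.mem_side hPt).1 hv
    rw [KR.df_inr] at h5
    have h6 : fv v (L 1 (fin_t (a i) (a j) x)) = 1 := by
      show fv v 1 = 1
      exact map_one _
    rw [h6, Real.log_one, sub_zero] at h5
    have h7 : M (Sum.inr v : Pl K) (fin_t (a i) (a j) x) ≤ 1 := by
      obtain ⟨m, hm⟩ := M_attained (Sum.inr v : Pl K) (fin_t (a i) (a j) x)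
      rw [hm]
      show fv v (L m (fin_t (a i) (a j) x)) ≤ 1
      fin_cases m
      · show fv v (fin_t (a i) (a j) x) ≤ 1
        rw [k1]; exact k3
      · exact h6.le
      · show fv v (-(fin_t (a i) (a j) x) - 1) ≤ 1
        have e : -(fin_t (a i) (a j) x) - 1 = -(fin_t (a i) (a j) x + 1) := by ring
        rw [e, (fv v).map_neg, k2]; exact k4
    have h8 : Real.log (M (Sum.inr v : Pl K) (fin_t (a i) (a j) x)) ≤ 0 :=
      Real.log_nonpos (zero_le_one.trans (one_le_M _ _)) h7
    linarith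
  · intro T' hT'
    have hsub : T' ⊆ si i ∪ si j := by
      intro v hv
      obtain ⟨h1, h2⟩ := hT' v hv
      obtain ⟨k1, k2, k3, k4⟩ := key v h2
      obtain ⟨hvS, _, _⟩ := hT v h2
      rw [mem_sp hPt, k1, k2] at h1
      have h3 : fv v (x - a i) < 1 ∨ fv v (x - a j) < 1 := by
        by_contra hcon
        push Not at hcon
        exact h1 ⟨le_antisymm k3 hcon.1, le_antisymm k4 hcon.2⟩
      rw [Finset.mem_union]
      rcases h3 with h3 | h3
      · left
        rw [hsi, Finset.mem_filter, Finset.mem_sdiff, hJ, Set.Finite.mem_toFinset]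
        exact ⟨⟨⟨hvS, i, (fin_lt_one v _).2 h3⟩, h2⟩, h3⟩
      · right
        rw [hsi, Finset.mem_filter, Finset.mem_sdiff, hJ, Set.Finite.mem_toFinset]
        exact ⟨⟨⟨hvS, j, (fin_lt_one v _).2 h3⟩, h2⟩, h3⟩
    have hfin : Real.log (nn T') ≤ Real.log (X ^ (2 / (q : ℝ))) := by
      rw [Real.log_rpow hX0]
      calc Real.log (nn T') = ∑ v ∈ T', Real.log (Nv v) := KR.log_nn _
        _ ≤ ∑ v ∈ si i ∪ si j, Real.log (Nv v) :=
            Finset.sum_le_sum_of_subset_of_nonneg hsub fun v _ _ => hlogpos v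
        _ = Real.log (nn (si i)) + Real.log (nn (si j)) := by
            rw [Finset.sum_union (hdisj i (Finset.mem_univ _) j (Finset.mem_univ _) hne),
              KR.log_nn, KR.log_nn]
        _ ≤ _ := hs
    exact (Real.log_le_log_iff (nn_pos _) (Real.rpow_pos_of_pos hX0 _)).1 hfin

variable (K) in
/-- the final statement -/
theorem final (hm : ∀ c : ℝ, 0 ≤ c → MainBound K (1 / 2) c)
    (hs : ∀ S0 : Finset (Pr K), ∃ c : ℝ, 0 ≤ c ∧ ∀ (x : K) (C : Fin 3) (X : ℝ), Pt x →
      side C x ⊆ S0 → 1 ≤ X → (∀ T : Finset (Pr K), (∀ v ∈ T, v ∈ sp x ∧ v ∉ S0) → nn T ≤ X) →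
      Adm (1 / 2) c X x)
    (S : Set (HeightOneSpectrum (𝓞 K))) (hS : S.Finite) (q : ℕ) (hq : 2 ≤ q) (a : Fin q → K)
    (ha : Function.Injective a) (ε : ℝ) (hε : 0 < ε) :
    ∃ C : ℝ, ∀ X H : ℝ, 1 ≤ X → 1 ≤ H → (Points S a X H).Finite ∧
      ((Points S a X H).ncard : ℝ) ≤ C * H * X ^ (1 / (q : ℝ) + ε) := by
  classical
  obtain ⟨T, hT⟩ := fin_bad S hS a ha
  obtain ⟨c, hc0, hadm⟩ := hs T
  obtain ⟨C, hC0, hC⟩ := hm c hc0 ε hε
  have hne : ∀ s : Fin q, a s ≠ a (finRotate q s) := fun s h => fin_rotate_ne hq s (ha h)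
  set cs : Fin q → ℝ := fun s =>
    Height.totalWeight K * Real.log 2 + Height.logHeight (fin_mat (a s) (a (finRotate q s))) with hcs
  have hcs0 : ∀ s, 0 ≤ cs s := fun s =>
    add_nonneg (mul_nonneg (Nat.cast_nonneg _) (Real.log_nonneg (by norm_num)))
      (Height.logHeight_nonneg _)
  set c1 : ℝ := ∑ s, cs s with hc1
  have hc10 : 0 ≤ c1 := Finset.sum_nonneg fun s _ => hcs0 s
  have hcc : ∀ s, cs s ≤ c1 := fun s => Finset.single_le_sum (fun s _ => hcs0 s) (Finset.mem_univ s)
  have hq0 : (2 : ℝ) ≤ q := by exact_mod_cast hq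
  refine ⟨q * (C * (1 + c1)), ?_⟩
  intro X H hX hH
  have hX0 : 0 < X := by linarith
  set X' : ℝ := X ^ (2 / (q : ℝ)) with hX'
  have hX'1 : 1 ≤ X' := Real.one_le_rpow hX (by positivity)
  have hX'0 : 0 < X' := by linarith
  have hH'1 : 1 ≤ (1 + c1) * H := by nlinarith
  -- choose the indices
  have hex : ∀ x : K, ∃ s : Fin q, x ∈ Points S a X H →
      (∀ i, x ≠ a i) ∧ Adm (1 / 2) c X' (fin_t (a s) (a (finRotate q s)) x) ∧
        hgt (fin_t (a s) (a (finRotate q s)) x) ≤ (1 + c1) * H := by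
    intro x
    by_cases hp : x ∈ Points S a X H
    · obtain ⟨hxS, hx, h1, h2⟩ := hp
      obtain ⟨s, hs1, hs2⟩ := fin_index hq S ha T hT hxS hx hX h1
      refine ⟨s, fun _ => ⟨hx, hadm _ 1 X' (fin_Pt (hne s) (hx _) (hx _)) hs1 hX'1 hs2, ?_⟩⟩
      have h3 := fin_hgt (hne s) (hx s) (hx (finRotate q s))
      have h4 := hcc s
      rw [hcs] at h4
      simp only at h4
      nlinarith
    · exact ⟨⟨0, by omega⟩, fun h => absurd h hp⟩
  choose g hfg using hex
  set B : ℝ := C * ((1 + c1) * H) * X' ^ (1 / 2 + ε) with hB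
  have hB0 : 0 ≤ B := by positivity
  have hbound : ∀ G : Finset K, (G : Set K) ⊆ Points S a X H → (G.card : ℝ) ≤ q * B := by
    intro G hG
    have h1 : ∀ s : Fin q, ((G.filter fun p => g p = s).card : ℝ) ≤ B := by
      intro s
      have hinj : Set.InjOn (fun p => fin_t (a s) (a (finRotate q s)) p)
          (G.filter fun p => g p = s) := by
        intro p _ r _ hpr
        exact fin_inj (hne s) hpr
      rw [← Finset.card_image_of_injOn hinj]
      refine hC X' ((1 + c1) * H) hX'1 hH'1 _ ?_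
      intro t ht
      obtain ⟨p, hp, rfl⟩ := Finset.mem_image.1 ht
      have hp' := Finset.mem_filter.1 hp
      obtain ⟨_, h2, h3⟩ := hfg p (hG hp'.1)
      rw [hp'.2] at h2 h3
      exact ⟨h2, h3⟩
    have h2 : G.card = ∑ s : Fin q, (G.filter fun p => g p = s).card :=
      Finset.card_eq_sum_card_fiberwise fun p _ => Finset.mem_univ (g p)
    rw [h2]
    push_cast
    calc ∑ s : Fin q, ((G.filter fun p => g p = s).card : ℝ) ≤ ∑ _s : Fin q, B :=
          Finset.sum_le_sum fun s _ => h1 s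
      _ = q * B := by rw [Finset.sum_const, Finset.card_univ, Fintype.card_fin, nsmul_eq_mul]
  have hfinal : q * B ≤ q * (C * (1 + c1)) * H * X ^ (1 / (q : ℝ) + ε) := by
    have h1 : X' ^ (1 / 2 + ε) ≤ X ^ (1 / (q : ℝ) + ε) := by
      rw [hX', ← Real.rpow_mul hX0.le]
      refine Real.rpow_le_rpow_of_exponent_le hX ?_
      have h3 : 2 / (q : ℝ) * (1 / 2 + ε) = 1 / q + 2 / q * ε := by ring
      rw [h3]
      have h4 : 2 / (q : ℝ) ≤ 1 := (div_le_one (by linarith)).2 hq0
      nlinarith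
    have h2 : B ≤ C * ((1 + c1) * H) * X ^ (1 / (q : ℝ) + ε) :=
      mul_le_mul_of_nonneg_left h1 (by positivity)
    calc q * B ≤ q * (C * ((1 + c1) * H) * X ^ (1 / (q : ℝ) + ε)) :=
          mul_le_mul_of_nonneg_left h2 (by linarith)
      _ = _ := by ring
  have hfin : (Points S a X H).Finite := by
    by_contra hinf
    obtain ⟨G, hGV, hGc⟩ := Set.Infinite.exists_subset_card_eq hinf (⌊q * B⌋₊ + 1)
    have h1 := hbound G hGV
    have h2 := Nat.lt_floor_add_one (q * B)
    rw [hGc] at h1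
    push_cast at h1
    linarith
  refine ⟨hfin, ?_⟩
  rw [Set.ncard_eq_toFinset_card _ hfin]
  exact (hbound hfin.toFinset (by rw [Set.Finite.coe_toFinset])).trans hfinal

end Pool.Agent.TH876.GR
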