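import Mathlib
import Pool.Agent.TH876.KR.Main
import Pool.Agent.TH876.GR.Def

set_option autoImplicit false

/-!
# Assembly of the count with a general exponent
-/

namespace Pool.Agent.TH876.GR

open NumberField IsDedekindDomain Finset Pool.Agent.H691R3 Pool.Agent.TH876.Loc
open Pool.Agent.TH876.KR (side rr aw Sc Light InP)

variable {K : Type} [Field K] [NumberField K]

private theorem main_rad {e c X : ℝ} (hX : 0 < X) {x : K} (h : Adm e c X x) :
    nn (sp x) ≤ Real.exp c * X := by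
  have h0 : 0 < nn (sp x) := nn_pos _
  have h1 := h.rad
  have h2 : nn (sp x) ≤ Real.exp (Real.log X + c) := by
    rw [← Real.exp_log h0]
    exact Real.exp_le_exp.2 h1
  rw [Real.exp_add, Real.exp_log hX] at h2
  linarith

variable (K) in
theorem mainBound (e c : ℝ) (he : 0 < e) (he1 : e ≤ 2 / 3) (hc : 0 ≤ c)
    (h1 : ScaleBound K e c) (h2 : SmallBound K e c) : MainBound K e c := by
  classical
  intro ε hε
  obtain ⟨η, hη, L1, hL1, C1, hC1, hsmall⟩ := h2 ε hε
  obtain ⟨k0, hk0⟩ := exists_nat_ge (4 / ε)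
  obtain ⟨k, hkd⟩ : ∃ k, k = max 3 k0 := ⟨_, rfl⟩
  have hk3 : 3 ≤ k := by rw [hkd]; exact le_max_left _ _
  have hk1 : 1 ≤ k := by omega
  have hkp : (0 : ℝ) < k := by positivity
  have hkε : 4 / (k : ℝ) ≤ ε := by
    rw [div_le_iff₀ hkp]
    have h1 : (k0 : ℝ) ≤ k := by
      rw [hkd]; exact_mod_cast le_max_right 3 k0
    rw [div_le_iff₀ hε] at hk0
    nlinarith
  obtain ⟨D, hD, L0, hL0, hscale⟩ := h1 k hk3 η hη
  obtain ⟨C2, hC2, hall⟩ := KR.all_heights K ε hε
  obtain ⟨X0, hX0d⟩ : ∃ X0 : ℝ, X0 = max 16 (Real.exp (max L0 L1)) := ⟨_, rfl⟩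
  have hX016 : 16 ≤ X0 := by rw [hX0d]; exact le_max_left _ _
  have hρ := KR.rho_gt hk1
  have hρ0 : 0 < KR.rho k - 1 := by linarith
  have hec : 1 ≤ Real.exp c := Real.one_le_exp hc
  have hec0 : 0 < Real.exp c := Real.exp_pos c
  refine ⟨C2 * (Real.exp c * X0) ^ (1 + ε) + C2 * Real.exp c ^ (1 + ε) + C1 +
      D * (KR.rho k / (KR.rho k - 1)), by
    have : 0 < X0 := by linarith
    have : 0 < KR.rho k := by linarith
    positivity, ?_⟩
  intro X H hX hH F hF
  have hXpos : 0 < X := by linarith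
  have hHpos : 0 < H := by linarith
  have hX0pos : 0 < X0 := by linarith
  have hρpos : 0 < KR.rho k := by linarith
  have hP1 : 1 ≤ X ^ (e + ε) := Real.one_le_rpow hX (by positivity)
  have hHP : 1 ≤ H * X ^ (e + ε) := by nlinarith
  have hHP0 : 0 < H * X ^ (e + ε) := by linarith
  have z1 : 0 ≤ C2 * (Real.exp c * X0) ^ (1 + ε) * (H * X ^ (e + ε)) := by positivity
  have z2 : 0 ≤ C2 * Real.exp c ^ (1 + ε) * (H * X ^ (e + ε)) := by positivity
  have z3 : 0 ≤ C1 * (H * X ^ (e + ε)) := by positivity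
  have z4 : 0 ≤ D * (KR.rho k / (KR.rho k - 1)) * (H * X ^ (e + ε)) := by positivity
  have hgoal : (C2 * (Real.exp c * X0) ^ (1 + ε) + C2 * Real.exp c ^ (1 + ε) + C1 +
      D * (KR.rho k / (KR.rho k - 1))) * H * X ^ (e + ε) =
      C2 * (Real.exp c * X0) ^ (1 + ε) * (H * X ^ (e + ε)) +
      C2 * Real.exp c ^ (1 + ε) * (H * X ^ (e + ε)) +
      C1 * (H * X ^ (e + ε)) + D * (KR.rho k / (KR.rho k - 1)) * (H * X ^ (e + ε)) := by ring
  rw [hgoal]
  rcases le_or_gt X X0 with hsm | hbig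
  · -- small `X`
    have h16 : 16 ≤ Real.exp c * X0 := by nlinarith
    have h1 := hall (Real.exp c * X0) h16 F fun x hx =>
      ⟨(hF x hx).1.pt, (main_rad hXpos (hF x hx).1).trans (by gcongr)⟩
    have h2 : C2 * (Real.exp c * X0) ^ (1 + ε) * 1 ≤
        C2 * (Real.exp c * X0) ^ (1 + ε) * (H * X ^ (e + ε)) :=
      mul_le_mul_of_nonneg_left hHP (by positivity)
    linarith
  have hX16 : 16 ≤ X := by linarith
  have hlogX : max L0 L1 ≤ Real.log X := by
    rw [Real.le_log_iff_exp_le hXpos]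
    refine le_trans ?_ hbig.le
    rw [hX0d]
    exact le_max_right _ _
  have hLL0 : L0 ≤ Real.log X := (le_max_left _ _).trans hlogX
  have hLL1 : L1 ≤ Real.log X := (le_max_right _ _).trans hlogX
  rcases le_or_gt H X with hHX | hHX
  swap
  · -- large heights are allowed
    have h16 : 16 ≤ Real.exp c * X := by nlinarith
    have h1 := hall (Real.exp c * X) h16 F fun x hx =>
      ⟨(hF x hx).1.pt, main_rad hXpos (hF x hx).1⟩
    have h2 : X ^ (1 + ε) ≤ H * X ^ (e + ε) := by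
      have h3 : X ^ (1 + ε) = X ^ (1 - e) * X ^ (e + ε) := by
        rw [← Real.rpow_add hXpos]
        congr 1
        ring
      rw [h3]
      refine mul_le_mul_of_nonneg_right ?_ (by positivity)
      calc X ^ (1 - e) ≤ X ^ (1 : ℝ) :=
            Real.rpow_le_rpow_of_exponent_le hX (by linarith)
        _ = X := Real.rpow_one X
        _ ≤ H := hHX.le
    rw [Real.mul_rpow hec0.le hXpos.le] at h1
    have h3 : C2 * (Real.exp c ^ (1 + ε) * X ^ (1 + ε)) ≤
        C2 * Real.exp c ^ (1 + ε) * (H * X ^ (e + ε)) := by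
      rw [← mul_assoc]
      exact mul_le_mul_of_nonneg_left h2 (by positivity)
    linarith
  -- split according to the height
  obtain ⟨l0, hl0⟩ : ∃ l0, l0 = Real.log X ^ (2 + η) := ⟨_, rfl⟩
  have hLX0 : 0 < Real.log X := by linarith
  have hl0pos : 0 < l0 := by rw [hl0]; positivity
  have hsplit : F.card = (F.filter fun x => hgt x ≤ l0).card +
      (F.filter fun x => ¬ hgt x ≤ l0).card := by
    rw [Finset.card_filter_add_card_filter_not]
  have hs := hsmall X hX hLL1 (F.filter fun x => hgt x ≤ l0) (by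
    intro x hx
    obtain ⟨h1, h2⟩ := Finset.mem_filter.1 hx
    exact ⟨(hF x h1).1, by rw [← hl0]; exact h2⟩)
  have hs' : C1 * X ^ (e + ε) ≤ C1 * (H * X ^ (e + ε)) := by
    refine mul_le_mul_of_nonneg_left ?_ hC1.le
    nlinarith
  have hb : ((F.filter fun x => ¬ hgt x ≤ l0).card : ℝ) ≤
      D * (KR.rho k / (KR.rho k - 1)) * (H * X ^ (e + ε)) := by
    rcases le_or_gt l0 H with hlH | hlH
    swap
    · have : (F.filter fun x => ¬ hgt x ≤ l0) = ∅ := by
        rw [Finset.eq_empty_iff_forall_notMem]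
        intro x hx
        obtain ⟨h1, h2⟩ := Finset.mem_filter.1 hx
        exact h2 ((hF x h1).2.trans hlH.le)
      rw [this, Finset.card_empty, Nat.cast_zero]
      exact z4
    obtain ⟨J, hJ, hcard⟩ := KR.scales hk1 hl0pos hlH (F.filter fun x => ¬ hgt x ≤ l0) (by
      intro x hx
      obtain ⟨h1, h2⟩ := Finset.mem_filter.1 hx
      exact ⟨(not_le.1 h2).le, (hF x h1).2⟩)
    have h1 : ((F.filter fun x => ¬ hgt x ≤ l0).card : ℝ) ≤
        ∑ j ∈ Finset.range (J + 1), D * X ^ (e + 4 / (k : ℝ)) * (l0 * KR.rho k ^ j) := by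
      have h2 : ((F.filter fun x => ¬ hgt x ≤ l0).card : ℝ) ≤
          ((∑ j ∈ Finset.range (J + 1), ((F.filter fun x => ¬ hgt x ≤ l0).filter
            fun x => Sc k (l0 * KR.rho k ^ j) x).card : ℕ) : ℝ) := by exact_mod_cast hcard
      refine h2.trans ?_
      rw [Nat.cast_sum]
      refine Finset.sum_le_sum fun j hj => ?_
      have hj' : j ≤ J := Nat.lt_succ_iff.1 (Finset.mem_range.1 hj)
      have h3 : l0 * KR.rho k ^ j ≤ H :=
        (mul_le_mul_of_nonneg_left (pow_le_pow_right₀ hρ.le hj') hl0pos.le).trans hJ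
      refine hscale X hX hLL0 (l0 * KR.rho k ^ j) ?_ (h3.trans hHX) _ ?_
      · rw [← hl0]
        exact le_mul_of_one_le_right hl0pos.le (one_le_pow₀ hρ.le)
      · intro x hx
        obtain ⟨h4, h5⟩ := Finset.mem_filter.1 hx
        obtain ⟨h6, _⟩ := Finset.mem_filter.1 h4
        exact ⟨(hF x h6).1, h5⟩
    rw [← Finset.mul_sum, ← Finset.mul_sum] at h1
    refine h1.trans ?_
    have h2 : l0 * ∑ j ∈ Finset.range (J + 1), KR.rho k ^ j ≤
        KR.rho k / (KR.rho k - 1) * H := by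
      have h3 := mul_le_mul_of_nonneg_left (KR.geom_le hρ J) hl0pos.le
      have h4 : l0 * (KR.rho k / (KR.rho k - 1) * KR.rho k ^ J) =
          KR.rho k / (KR.rho k - 1) * (l0 * KR.rho k ^ J) := by ring
      rw [h4] at h3
      exact h3.trans (mul_le_mul_of_nonneg_left hJ (by positivity))
    have h5 : X ^ (e + 4 / (k : ℝ)) ≤ X ^ (e + ε) :=
      Real.rpow_le_rpow_of_exponent_le hX (by linarith)
    have hsum0 : 0 ≤ l0 * ∑ j ∈ Finset.range (J + 1), KR.rho k ^ j :=
      mul_nonneg hl0pos.le (Finset.sum_nonneg fun j _ => pow_nonneg hρpos.le _)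
    calc D * X ^ (e + 4 / (k : ℝ)) * (l0 * ∑ j ∈ Finset.range (J + 1), KR.rho k ^ j) ≤
        (D * X ^ (e + ε)) * (KR.rho k / (KR.rho k - 1) * H) :=
          mul_le_mul (mul_le_mul_of_nonneg_left h5 hD.le) h2 hsum0 (by positivity)
      _ = _ := by ring
  rw [hsplit]
  push_cast
  linarith

end Pool.Agent.TH876.GR
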