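import Mathlib
import Pool.Agent.TH876.KR.Small
import Pool.Agent.TH876.KR.Fiber
import Pool.Agent.TH876.GR.Def

set_option autoImplicit false

/-!
# Points of small height, general exponent (helper698, job GR-2 of helper876)

Adapts `Pool/Agent/TH876/KR/Small.lean` (exponent `2/3`) to a general exponent.
-/

namespace Pool.Agent.TH876.GR

open NumberField IsDedekindDomain Finset Pool.Agent.H691R3 Pool.Agent.TH876.Loc
open Pool.Agent.TH876.KR (side rr aw Sc Light InP)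

variable {K : Type} [Field K] [NumberField K]

open Classical in
/-- the points for which two given sides have a small radical -/
private theorem small_pair_count {C a M B σ V : ℝ} (ha : 0 ≤ a) (hσ : 0 ≤ σ) (hC : 1 ≤ C)
    (hB : 1 ≤ B) {i j : Fin 3}
    (hfib : ∀ F : Finset K, (∀ x ∈ F, Pt x ∧ hgt x ≤ B) →
      (∀ x ∈ F, ∀ y ∈ F, ∀ v : Pr K, df (Sum.inr v : Pl K) i x = df (Sum.inr v : Pl K) i y ∧
        df (Sum.inr v : Pl K) j x = df (Sum.inr v : Pl K) j y) → (F.card : ℝ) ≤ C * B ^ C)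
    (hV : ∀ P : Finset (Pr K), ∑ f ∈ Fintype.piFinset (fun _ : P => range (⌊2 * B⌋₊ + 1)),
      ∏ v : P, KR.wt σ a v.1 (f v) ≤ V)
    (F : Finset K) (hF : ∀ x ∈ F, Pt x ∧ hgt x ≤ B ∧ rr i x + rr j x ≤ M) :
    (F.card : ℝ) ≤ C * B ^ C * (Real.exp (a * M + 2 * σ * B) * V ^ 2) := by
  classical
  obtain ⟨P, hP⟩ : ∃ P : Finset (Pr K), P = F.biUnion sp := ⟨_, rfl⟩
  have hsub : ∀ x ∈ F, sp x ⊆ P := by
    intro x hx
    rw [hP]
    exact Finset.subset_biUnion_of_mem sp hx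
  have hV := hV P
  set G : Finset (P → ℕ) := Fintype.piFinset (fun _ : P => range (⌊2 * B⌋₊ + 1)) with hG
  set H : (P → ℕ) → ℝ := fun f => ∏ v : P, KR.wt σ a v.1 (f v) with hH
  have hH0 : ∀ f, 0 ≤ H f := fun f => Finset.prod_nonneg fun v _ => KR.wt_nonneg _ _ _ _
  set φ : K → (P → ℕ) × (P → ℕ) := fun x => (fun v => KR.ex i x v.1, fun v => KR.ex j x v.1)
    with hφ
  have hBC : 0 ≤ C * B ^ C := by positivity
  -- fibres
  have h1 : ∀ b ∈ F.image φ, (((F.filter fun x => φ x = b).card : ℕ) : ℝ) ≤ C * B ^ C := by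
    intro b _
    refine hfib _ (fun x hx => ?_) ?_
    · obtain ⟨c1, _⟩ := Finset.mem_filter.1 hx
      exact ⟨(hF x c1).1, (hF x c1).2.1⟩
    · intro x hx y hy v
      obtain ⟨c1, c2⟩ := Finset.mem_filter.1 hx
      obtain ⟨d1, d2⟩ := Finset.mem_filter.1 hy
      have e : φ x = φ y := c2.trans d2.symm
      simp only [hφ, Prod.mk.injEq] at e
      by_cases hv : v ∈ P
      · have e1 := congrFun e.1 ⟨v, hv⟩
        have e2 := congrFun e.2 ⟨v, hv⟩
        simp only at e1 e2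
        rw [KR.df_ex (hF x c1).1, KR.df_ex (hF y d1).1, KR.df_ex (hF x c1).1,
          KR.df_ex (hF y d1).1, e1, e2]
        exact ⟨rfl, rfl⟩
      · have k : ∀ z ∈ F, ∀ l, df (Sum.inr v : Pl K) l z = 0 := by
          intro z hz l
          exact KR.df_eq_zero (hF z hz).1 fun h => hv (hsub z hz (KR.side_sub l z h))
        rw [k x c1, k y d1, k x c1, k y d1]
        exact ⟨rfl, rfl⟩
  have h2 : (F.card : ℝ) ≤ C * B ^ C * ((F.image φ).card : ℝ) := by
    rw [Finset.card_eq_sum_card_image φ F, Nat.cast_sum]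
    refine (Finset.sum_le_sum h1).trans ?_
    rw [Finset.sum_const, nsmul_eq_mul, mul_comm]
  refine h2.trans (mul_le_mul_of_nonneg_left ?_ hBC)
  -- weights
  have h3 : ∀ b ∈ F.image φ, (1 : ℝ) ≤ Real.exp (a * M + 2 * σ * B) * (H b.1 * H b.2) := by
    intro b hb
    obtain ⟨x, hx, rfl⟩ := Finset.mem_image.1 hb
    obtain ⟨c1, c2, c3⟩ := hF x hx
    simp only [hφ, hH]
    rw [KR.prod_wt c1 i (hsub x hx), KR.prod_wt c1 j (hsub x hx), ← Real.exp_add, ← Real.exp_add,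
      Real.one_le_exp_iff]
    have k1 := mul_le_mul_of_nonneg_left ((KR.sum_side_le c1 i).trans c2) hσ
    have k2 := mul_le_mul_of_nonneg_left ((KR.sum_side_le c1 j).trans c2) hσ
    have k3 := mul_le_mul_of_nonneg_left c3 ha
    nlinarith
  have h4 : ((F.image φ).card : ℝ) ≤
      ∑ b ∈ F.image φ, Real.exp (a * M + 2 * σ * B) * (H b.1 * H b.2) := by
    rw [Finset.card_eq_sum_ones, Nat.cast_sum]
    exact Finset.sum_le_sum fun b hb => by rw [Nat.cast_one]; exact h3 b hb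
  refine h4.trans ?_
  rw [← Finset.mul_sum]
  refine mul_le_mul_of_nonneg_left ?_ (Real.exp_pos _).le
  have h5 : ∑ b ∈ F.image φ, H b.1 * H b.2 ≤ (∑ f ∈ G, H f) ^ 2 := by
    rw [sq, Finset.sum_mul_sum, ← Finset.sum_product']
    refine Finset.sum_le_sum_of_subset_of_nonneg ?_ fun b _ _ => mul_nonneg (hH0 _) (hH0 _)
    intro b hb
    obtain ⟨x, hx, rfl⟩ := Finset.mem_image.1 hb
    obtain ⟨c1, c2, _⟩ := hF x hx
    rw [Finset.mem_product, hG, Fintype.mem_piFinset, Fintype.mem_piFinset]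
    exact ⟨fun v => Finset.mem_range.2 (Nat.lt_succ_of_le (KR.ex_le c1 i v.1 c2)),
      fun v => Finset.mem_range.2 (Nat.lt_succ_of_le (KR.ex_le c1 j v.1 c2))⟩
  refine h5.trans (pow_le_pow_left₀ (Finset.sum_nonneg fun f _ => hH0 f) hV 2)

variable (K) in
/-- **points of small height** -/
theorem smallBound (e c : ℝ) (he : 0 < e) (hc : 0 ≤ c) : SmallBound K e c := by
  classical
  intro ε hε
  obtain ⟨C0, hC0, hfib⟩ := KR.fiber_small K
  obtain ⟨θ, hθ⟩ : ∃ θ : ℝ, θ = ε / (2 * (e + 1)) := ⟨_, rfl⟩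
  have hθ0 : 0 < θ := by rw [hθ]; positivity
  have hθe : θ * e ≤ ε / 2 := by
    rw [hθ, div_mul_eq_mul_div, div_le_div_iff₀ (by positivity) (by norm_num)]
    nlinarith
  obtain ⟨β, hβ⟩ : ∃ β : ℝ, β = 1 / (1 + θ / 2) := ⟨_, rfl⟩
  have hβ0 : 0 < β := by rw [hβ]; positivity
  have hβ1 : β ≤ 1 := by
    rw [hβ, div_le_one (by positivity)]; linarith
  have haβ : 1 < (1 + θ) * β := by
    rw [hβ, mul_one_div, lt_div_iff₀ (by positivity)]; linarith
  obtain ⟨η, hη⟩ : ∃ η : ℝ, η = θ / 4 := ⟨_, rfl⟩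
  have hη0 : 0 < η := by rw [hη]; positivity
  have hγ : (1 + η) * β < 1 := by
    rw [hβ, mul_one_div, div_lt_one (by positivity), hη]; linarith
  obtain ⟨Z, hZ⟩ : ∃ Z : ℝ, Z = (Module.finrank ℚ K : ℝ) *
    ∑' n : ℕ, ((n : ℝ) ^ ((1 + θ) * β))⁻¹ := ⟨_, rfl⟩
  have hZ0 : 0 ≤ Z := by
    rw [hZ]; exact mul_nonneg (Nat.cast_nonneg _) (tsum_nonneg fun n => by positivity)
  -- the threshold for `L`
  obtain ⟨W, hW⟩ : ∃ W : ℝ, W = (32 / ε) ^ β * Z / β * (16 / ε) := ⟨_, rfl⟩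
  have hW0 : 0 ≤ W := by rw [hW]; positivity
  obtain ⟨γ, hγd⟩ : ∃ γ : ℝ, γ = 1 - (1 + η) * β := ⟨_, rfl⟩
  have hγ0 : 0 < γ := by rw [hγd]; linarith
  obtain ⟨D, hD0, hD⟩ := KR.rpow_le_exp (c := (2 + η) * C0) (δ := ε / 4) (by positivity)
    (by positivity)
  refine ⟨η, hη0, max 1 (W ^ (1 / γ)), le_max_left _ _,
    9 * (C0 * D * Real.exp ((1 + θ) * c)), by positivity, fun X hX hL F hF => ?_⟩
  obtain ⟨L, hLd⟩ : ∃ L, L = Real.log X := ⟨_, rfl⟩
  rw [← hLd] at hL hF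
  have hL1 : 1 ≤ L := (le_max_left _ _).trans hL
  have hL0 : 0 < L := by linarith
  have hX0 : 0 < X := by linarith
  have hWL : W ≤ L ^ γ := by
    have h1 : (W ^ (1 / γ)) ^ γ ≤ L ^ γ :=
      Real.rpow_le_rpow (by positivity) ((le_max_right _ _).trans hL) hγ0.le
    rwa [← Real.rpow_mul hW0, one_div_mul_cancel hγ0.ne', Real.rpow_one] at h1
  obtain ⟨σ, hσ⟩ : ∃ σ : ℝ, σ = ε / 16 * L ^ (-(1 + η)) := ⟨_, rfl⟩
  have hσ0 : 0 < σ := by rw [hσ]; positivity
  obtain ⟨B, hB⟩ : ∃ B : ℝ, B = L ^ (2 + η) := ⟨_, rfl⟩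
  have hB1 : 1 ≤ B := by
    rw [hB]; exact Real.one_le_rpow hL1 (by linarith)
  have hσB : σ * B = ε / 16 * L := by
    rw [hσ, hB, mul_assoc, ← Real.rpow_add hL0]
    have : -(1 + η) + (2 + η) = 1 := by ring
    rw [this, Real.rpow_one]
  have h4 : (2 / σ) ^ β * Z / β ≤ ε / 16 * L := by
    have e1 : 2 / σ = 32 / ε * L ^ (1 + η) := by
      rw [hσ, Real.rpow_neg hL0.le]
      field_simp
      norm_num
    rw [e1, Real.mul_rpow (by positivity) (by positivity), ← Real.rpow_mul hL0.le]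
    have e2 : L = L ^ ((1 + η) * β) * L ^ γ := by
      rw [← Real.rpow_add hL0, hγd]
      have : (1 + η) * β + (1 - (1 + η) * β) = 1 := by ring
      rw [this, Real.rpow_one]
    have e3 : (32 / ε) ^ β * L ^ ((1 + η) * β) * Z / β =
        ε / 16 * (L ^ ((1 + η) * β) * W) := by
      rw [hW]
      field_simp
    rw [e3]
    conv_rhs => rw [e2]
    refine mul_le_mul_of_nonneg_left ?_ (by positivity)
    exact mul_le_mul_of_nonneg_left hWL (by positivity)
  have hV : ∀ P : Finset (Pr K), ∑ f ∈ Fintype.piFinset (fun _ : P => range (⌊2 * B⌋₊ + 1)),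
      ∏ v : P, KR.wt σ (1 + θ) v.1 (f v) ≤ Real.exp (ε / 16 * L) := by
    intro P
    refine (KR.pi_sum_le hσ0 hβ0 hβ1 haβ P _).trans (Real.exp_le_exp.2 ?_)
    rw [← hZ]
    exact h4
  have hBC : B ^ C0 ≤ D * Real.exp (ε / 4 * L) := by
    rw [hB, ← Real.rpow_mul hL0.le]
    exact hD L hL1
  obtain ⟨Q, hQ⟩ : ∃ Q : ℝ, Q = C0 * D * Real.exp ((1 + θ) * c) * X ^ (e + ε) := ⟨_, rfl⟩
  have hQ0 : 0 ≤ Q := by rw [hQ]; positivity
  have hpair : ∀ i j : Fin 3, i ≠ j →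
      ((F.filter fun x => rr i x + rr j x ≤ e * L + c).card : ℝ) ≤ Q := by
    intro i j hij
    have h1 := small_pair_count (a := 1 + θ) (M := e * L + c) (by positivity) hσ0.le hC0 hB1
      (fun F h1 h2 => hfib B hB1 i j hij F h1 h2) hV
      (F.filter fun x => rr i x + rr j x ≤ e * L + c) (fun x hx => by
        obtain ⟨b1, b2⟩ := Finset.mem_filter.1 hx
        obtain ⟨c1, c3⟩ := hF x b1
        refine ⟨c1.pt, ?_, b2⟩
        rw [hB]
        exact c3)
    refine h1.trans ?_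
    have h5 : Real.exp ((1 + θ) * (e * L + c) + 2 * σ * B) * Real.exp (ε / 16 * L) ^ 2 =
        Real.exp ((1 + θ) * c) * Real.exp ((1 + θ) * e * L + ε / 4 * L) := by
      rw [← Real.exp_nat_mul, ← Real.exp_add, ← Real.exp_add]
      congr 1
      push_cast
      linear_combination 2 * hσB
    rw [h5, hQ]
    have hexpc : 0 < Real.exp ((1 + θ) * c) := Real.exp_pos _
    calc C0 * B ^ C0 * (Real.exp ((1 + θ) * c) * Real.exp ((1 + θ) * e * L + ε / 4 * L)) ≤
        C0 * (D * Real.exp (ε / 4 * L)) *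
          (Real.exp ((1 + θ) * c) * Real.exp ((1 + θ) * e * L + ε / 4 * L)) := by
          refine mul_le_mul_of_nonneg_right ?_ (by positivity)
          exact mul_le_mul_of_nonneg_left hBC (by linarith)
      _ = C0 * D * Real.exp ((1 + θ) * c) *
          Real.exp (ε / 4 * L + ((1 + θ) * e * L + ε / 4 * L)) := by
          rw [Real.exp_add (ε / 4 * L)]; ring
      _ ≤ C0 * D * Real.exp ((1 + θ) * c) * Real.exp (L * (e + ε)) := by
          refine mul_le_mul_of_nonneg_left (Real.exp_le_exp.2 ?_) (by positivity)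
          nlinarith
      _ = C0 * D * Real.exp ((1 + θ) * c) * X ^ (e + ε) := by
          rw [Real.rpow_def_of_pos hX0, hLd]
  have hcover : F ⊆ (univ : Finset (Fin 3 × Fin 3)).biUnion (fun q =>
      F.filter fun x => q.1 ≠ q.2 ∧ rr q.1 x + rr q.2 x ≤ e * L + c) := by
    intro x hx
    obtain ⟨i, j, hij, h⟩ := (hF x hx).1.two
    refine Finset.mem_biUnion.2 ⟨(i, j), mem_univ _, Finset.mem_filter.2 ⟨hx, hij, ?_⟩⟩
    rw [hLd]
    exact h
  have h1 := (Finset.card_le_card hcover).trans Finset.card_biUnion_le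
  have h2 : (F.card : ℝ) ≤ ∑ q : Fin 3 × Fin 3,
      ((F.filter fun x => q.1 ≠ q.2 ∧ rr q.1 x + rr q.2 x ≤ e * L + c).card : ℝ) := by
    exact_mod_cast h1
  have h3 : ∀ q : Fin 3 × Fin 3,
      ((F.filter fun x => q.1 ≠ q.2 ∧ rr q.1 x + rr q.2 x ≤ e * L + c).card : ℝ) ≤ Q := by
    intro q
    by_cases hq : q.1 = q.2
    · rw [Finset.filter_false_of_mem (fun x _ h => h.1 hq)]
      simpa using hQ0
    · refine le_trans ?_ (hpair q.1 q.2 hq)
      refine Nat.cast_le.2 (Finset.card_le_card fun x hx => ?_)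
      obtain ⟨b1, b2⟩ := Finset.mem_filter.1 hx
      exact Finset.mem_filter.2 ⟨b1, b2.2⟩
  calc (F.card : ℝ) ≤ ∑ q : Fin 3 × Fin 3,
      ((F.filter fun x => q.1 ≠ q.2 ∧ rr q.1 x + rr q.2 x ≤ e * L + c).card : ℝ) := h2
    _ ≤ ∑ _q : Fin 3 × Fin 3, Q := Finset.sum_le_sum fun q _ => h3 q
    _ = 9 * Q := by simp
    _ = 9 * (C0 * D * Real.exp ((1 + θ) * c)) * X ^ (e + ε) := by rw [hQ]; ring

end Pool.Agent.TH876.GR
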