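import Mathlib
import Pool.Agent.TH876.KR.Scale
import Pool.Agent.TH876.GR.Def

set_option autoImplicit false

/-!
# GR-1: the bound at one scale, general exponent (job 2366)
-/

namespace Pool.Agent.TH876.GR

open NumberField IsDedekindDomain Finset Pool.Agent.H691R3 Pool.Agent.TH876.Loc
open Pool.Agent.TH876.KR (side rr aw Sc Light InP)

variable {K : Type} [Field K] [NumberField K]

open Classical in
/-- the points of one scale, with given good sets -/
theorem Scale_count {C : ℕ} (hpig : KR.PigStmt K C) {k n N E : ℕ} (hk : 3 ≤ k) (hn : 1 ≤ n)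
    (hN : 1 ≤ N)
    {X l : ℝ} (hX : 1 ≤ X) (hl : 8 * k * (dK K * Real.log 2) < l) (hE : 3 * l ≤ E)
    (hr : 2 < l / (4 * k * Fintype.card (InfinitePlace K)))
    (hW : C * n * (2 * Real.exp (-(l / (8 * k * Fintype.card (InfinitePlace K))))) ≤ 1)
    (hcount : ∀ S : Finset (Pr K), nn S ≤ X → ∀ e : ℕ, 1 ≤ e → e ≤ E →
      ((n : ℝ) + 1) * (2 * n * E + 1) ^ S.card * (9 * e) ^ C * nn S ^ C < 2 ^ n)
    (hfin : ∀ e : ℕ, 1 ≤ e → e ≤ E →
      C * (Real.log e + n * Real.log X + n * (2 * (l / N)) / e + n) < l / (2 * k))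
    (U : Finset (Finset (Pr K)))
    (hU2 : ∀ S ∈ U, nn S ≤ X)
    (F : Finset K) (hF : ∀ x ∈ F, Pt x ∧ Sc k l x ∧ nn (sp x) ≤ X ∧ ∃ S ∈ U, GoodSet k S x) :
    F.card ≤ ∑ S ∈ U, 2 ^ (99 * k * (Spl S).card) *
      (1 + 27 * ((E + 1) * ((3 * N) ^ (3 * Fintype.card (InfinitePlace K)) * n))) := by
  have hk0 : (0 : ℝ) < k := by positivity
  have hk1 : 1 ≤ k := by omega
  have hl0 : 0 < l := lt_of_le_of_lt (mul_nonneg (by positivity) KR.dK_nn) hl
  have hl4 : 4 * k * (dK K * Real.log 2) < l := by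
    have : 0 ≤ 4 * k * (dK K * Real.log 2) := mul_nonneg (by positivity) KR.dK_nn
    linarith
  set FL : Finset (Pr K) → Finset K := fun S => F.filter fun x => Light k S x with hFL
  set FP : Finset (Pr K) → Fin 3 × Fin 3 × Fin 3 → ℕ → Finset K := fun S σ e =>
    F.filter fun x => σ.1 ≠ σ.2.1 ∧ σ.2.1 ≠ σ.2.2 ∧ σ.1 ≠ σ.2.2 ∧
      ∃ p, InP k S σ.1 σ.2.1 σ.2.2 x p ∧ Nv p ≤ X ∧
        df (Sum.inr p : Pl K) σ.2.1 x = e * Real.log (Nv p) with hFP
  set G : Finset (Pr K) → Finset K := fun S => FL S ∪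
    (Finset.univ : Finset (Fin 3 × Fin 3 × Fin 3)).biUnion (fun σ =>
      (Finset.Icc 1 E).biUnion (fun e => FP S σ e)) with hG
  have hsub : F ⊆ U.biUnion G := by
    intro x hx
    obtain ⟨h1, h2, h3, S, hSU, hgood⟩ := hF x hx
    rw [Finset.mem_biUnion]
    refine ⟨S, hSU, ?_⟩
    rcases hgood with hg | ⟨A, B, D, p, hAB, hBD, hAD, hP⟩
    · exact Finset.mem_union_left _ (Finset.mem_filter.2 ⟨hx, hg⟩)
    · refine Finset.mem_union_right _ ?_
      rw [Finset.mem_biUnion]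
      refine ⟨(A, B, D), Finset.mem_univ _, ?_⟩
      rw [Finset.mem_biUnion]
      obtain ⟨e, he⟩ := KR.df_int h1 p B
      have hpos := (KR.mem_side h1).1 hP.pB
      have hlog := KR.log_Nv_pos' p
      have hlog2 : Real.log 2 ≤ Real.log (Nv p) := Real.log_le_log (by norm_num) (two_le_Nv p)
      have l2 := Real.log_two_gt_d9
      have he1 : 1 ≤ e := by
        by_contra hcon
        have : e = 0 := by omega
        rw [he, this] at hpos
        simp at hpos
      have he0 : (0 : ℝ) ≤ e := Nat.cast_nonneg _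
      have heE : e ≤ E := by
        have h4 := KR.df_le_hgt h1 (Sum.inr p : Pl K) B
        rw [he] at h4
        have h5 := h2.le_two hk1 hl0.le
        have h6 : (e : ℝ) ≤ E := by nlinarith
        exact_mod_cast h6
      refine ⟨e, Finset.mem_Icc.2 ⟨he1, heE⟩, Finset.mem_filter.2
        ⟨hx, hAB, hBD, hAD, p, hP, ?_, he⟩⟩
      exact (Nv_le_nn (KR.side_sub B x hP.pB)).trans h3
  refine (Finset.card_le_card hsub).trans (Finset.card_biUnion_le.trans
    (Finset.sum_le_sum fun S hS => ?_))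
  have c1 : (FL S).card ≤ 2 ^ (99 * k * (Spl S).card) :=
    KR.card_light hk1 hl4 _ fun x hx => by
      obtain ⟨h1, h2⟩ := Finset.mem_filter.1 hx
      exact ⟨(hF x h1).1, (hF x h1).2.1, h2⟩
  have c2 : ∀ σ e, e ∈ Finset.Icc 1 E → (FP S σ e).card ≤
      2 ^ (99 * k * (Spl S).card) * (3 * N) ^ (3 * Fintype.card (InfinitePlace K)) * n := by
    intro σ e he
    obtain ⟨he1, he2⟩ := Finset.mem_Icc.1 he
    by_cases hσ : σ.1 ≠ σ.2.1 ∧ σ.2.1 ≠ σ.2.2 ∧ σ.1 ≠ σ.2.2
    · obtain ⟨hAB, hBD, hAD⟩ := hσ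
      refine KR.card_P hpig hk1 hn hN hAB hBD hAD he1 hX hl hE hr hW
        (hcount S (hU2 S hS) e he1 he2) (hfin e he1 he2) _ ?_
      intro x hx
      obtain ⟨h1, _, _, _, h2⟩ := Finset.mem_filter.1 hx
      exact ⟨(hF x h1).1, (hF x h1).2.1, h2⟩
    · have : FP S σ e = ∅ := by
        rw [Finset.eq_empty_iff_forall_notMem]
        intro x hx
        obtain ⟨_, a1, a2, a3, _⟩ := Finset.mem_filter.1 hx
        exact hσ ⟨a1, a2, a3⟩
      rw [this, Finset.card_empty]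
      exact Nat.zero_le _
  set R := 2 ^ (99 * k * (Spl S).card) with hR
  set R' := (3 * N) ^ (3 * Fintype.card (InfinitePlace K)) with hR'
  calc (G S).card ≤ (FL S).card + ((Finset.univ : Finset (Fin 3 × Fin 3 × Fin 3)).biUnion (fun σ =>
      (Finset.Icc 1 E).biUnion (fun e => FP S σ e))).card := Finset.card_union_le _ _
    _ ≤ R + 27 * ((E + 1) * (R * R' * n)) := by
        refine Nat.add_le_add c1 ?_
        refine (Finset.card_biUnion_le_card_mul _ _ ((E + 1) * (R * R' * n)) ?_).trans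
          (le_of_eq ?_)
        · intro σ _
          refine (Finset.card_biUnion_le_card_mul _ _ (R * R' * n) ?_).trans ?_
          · intro e he
            exact c2 σ e he
          · rw [Nat.card_Icc]
            exact Nat.mul_le_mul_right _ (by omega)
        · rw [Finset.card_univ]
          rfl
    _ = _ := by ring

variable (K) in
theorem scaleBound (e c : ℝ) (he : 0 < e) (he1 : e ≤ 2 / 3) (hc : 0 ≤ c) : ScaleBound K e c := by
  classical
  intro k hk η hη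
  have hk0 : (0 : ℝ) < k := by positivity
  have hk1 : 1 ≤ k := by omega
  have hk3 : (3 : ℝ) ≤ k := by exact_mod_cast hk
  obtain ⟨C, hC, hpig⟩ := KR.pigK K
  obtain ⟨r, hr⟩ : ∃ r, r = Fintype.card (InfinitePlace K) := ⟨_, rfl⟩
  have hr1 : 1 ≤ r := by rw [hr]; exact Fintype.card_pos
  obtain ⟨T, hT, hnum⟩ := KR.numericK C k r hC hk1 hr1 (dK K * Real.log 2) KR.dK_nn
  obtain ⟨L0, hL0, hsm⟩ := Pool.Agent.TH867.SR.sq_log_small hη
    (show 0 < 4 * T + 2 by linarith)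
  obtain ⟨hfinU, D1, hD1, hso⟩ := KR.sum_sets K ((2 : ℝ) ^ (99 * k)) (one_le_pow₀ (by norm_num))
    (1 / (k : ℝ)) (by positivity)
  -- a constant for powers of the logarithm
  obtain ⟨m, hm⟩ : ∃ m : ℕ, m = 3 * r + 1 := ⟨_, rfl⟩
  obtain ⟨A, hA⟩ : ∃ A : ℝ, A = 2 * (21 + 12 * C) := ⟨_, rfl⟩
  have hA0 : 0 < A := by rw [hA]; positivity
  obtain ⟨D2, hD2, hpow⟩ : ∃ D2 : ℝ, 0 < D2 ∧ ∀ X : ℝ, 1 ≤ X →
      Real.log X ^ (2 * m) ≤ D2 * X ^ (1 / (k : ℝ)) := by
    refine ⟨(2 * m * k) ^ (2 * m), ?_, ?_⟩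
    · rw [hm]; positivity
    intro X hX
    have hX0 : 0 < X := by linarith
    have hm0 : (0 : ℝ) < 2 * m * k := by rw [hm]; positivity
    have a1 : Real.log X ≤ X ^ (1 / (2 * m * (k : ℝ))) / (1 / (2 * m * (k : ℝ))) :=
      Real.log_le_rpow_div hX0.le (by positivity)
    have a2 : X ^ (1 / (2 * m * (k : ℝ))) / (1 / (2 * m * (k : ℝ))) =
        2 * m * k * X ^ (1 / (2 * m * (k : ℝ))) := by
      field_simp
    rw [a2] at a1
    refine (pow_le_pow_left₀ (Real.log_nonneg hX) a1 _).trans (le_of_eq ?_)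
    rw [mul_pow, ← Real.rpow_natCast (X ^ (1 / (2 * m * (k : ℝ)))), ← Real.rpow_mul hX0.le]
    congr 2
    have : (m : ℝ) ≠ 0 := by
      rw [hm]; positivity
    push_cast
    field_simp
  have hexp : e + 1 / (k : ℝ) ≤ 1 := by
    have : 1 / (k : ℝ) ≤ 1 / 3 := one_div_le_one_div_of_le (by norm_num) hk3
    linarith
  refine ⟨28 * 5 * (48 * C * k) ^ (3 * r) * A ^ m * D2 * 2 ^ (99 * k * r) *
    (D1 * Real.exp (2 * c)) + 1, by positivity, max L0 c, hL0.trans (le_max_left _ _), ?_⟩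
  intro X hX hXL l hl hlX F hF
  have hX0 : 0 < X := by linarith
  obtain ⟨L, hLd⟩ : ∃ L, L = Real.log X := ⟨_, rfl⟩
  rw [← hLd] at hXL hl
  have hcL : c ≤ L := (le_max_right _ _).trans hXL
  replace hXL : L0 ≤ L := (le_max_left _ _).trans hXL
  have hL3 : 3 ≤ L := hL0.trans hXL
  obtain ⟨hlog1, hLl, hTl⟩ := hsm L hXL l hl
  have hl3 : 3 ≤ l := hL3.trans hLl
  have hl0 : 0 < l := by linarith
  have hlogL : Real.log l ≤ L := by
    rw [hLd]; exact Real.log_le_log hl0 hlX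
  have hq : L ≤ L ^ 2 * Real.log l := by nlinarith
  have hTl2 : T * ((2 * L) ^ 2 * Real.log l) ≤ l := by nlinarith
  have hLl2 : 2 * L ≤ l := by
    have : 0 ≤ T * (L ^ 2 * Real.log l) := by positivity
    nlinarith
  obtain ⟨n, N, E, hn, hN, hnA, hNn, hE1, hE2, c1, c2, c3, c4, c5⟩ :=
    hnum (2 * L) l (by linarith) hlog1 hLl2 hTl2
  have hX2 : (1 : ℝ) ≤ X ^ 2 := one_le_pow₀ hX
  have hX20 : (0 : ℝ) < X ^ 2 := by positivity
  have hlogX2 : Real.log (X ^ 2) = 2 * L := by rw [Real.log_pow, hLd]; norm_num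
  have hexpc : Real.exp c ≤ X := by
    rw [← Real.exp_log hX0, ← hLd]
    exact Real.exp_le_exp.2 hcL
  obtain ⟨M, hM⟩ : ∃ M, M = Real.exp c * X ^ (e + 1 / (k : ℝ)) := ⟨_, rfl⟩
  have hec1 : 1 ≤ Real.exp c := Real.one_le_exp hc
  have hXe1 : 1 ≤ X ^ (e + 1 / (k : ℝ)) := Real.one_le_rpow hX (by positivity)
  have hM1 : 1 ≤ M := by rw [hM]; nlinarith
  have hMX : M ≤ X ^ 2 := by
    rw [hM, sq]
    refine mul_le_mul hexpc ?_ (by positivity) hX0.le
    calc X ^ (e + 1 / (k : ℝ)) ≤ X ^ (1 : ℝ) := Real.rpow_le_rpow_of_exponent_le hX hexp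
      _ = X := Real.rpow_one X
  have hMlog : Real.log M = (e + 1 / (k : ℝ)) * Real.log X + c := by
    rw [hM, Real.log_mul (by positivity) (by positivity), Real.log_exp, Real.log_rpow hX0]
    ring
  set U := (hfinU M).toFinset with hU
  have hcount := Scale_count (C := C) hpig hk hn hN hX2 c1 hE1 (by rw [← hr]; exact c2)
    (by rw [← hr]; exact c3)
    (fun S hS e' he' heE' => c4 S.card e' (nn S) (by
        have h1 := KR.card_log_le hS
        have l2 := Real.log_two_gt_d9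
        rw [hlogX2] at h1
        nlinarith [(Nat.cast_nonneg S.card : (0 : ℝ) ≤ S.card)]) (one_le_nn S) (by
        rw [← hlogX2]; exact Real.log_le_log (nn_pos S) hS) he' heE')
    (fun e' he' heE' => by rw [hlogX2]; exact c5 e' he' heE')
    U
    (fun S hS => by
      rw [hU, Set.Finite.mem_toFinset] at hS
      exact le_trans hS hMX) F (fun x hx => by
        obtain ⟨hadm, hsc⟩ := hF x hx
        refine ⟨hadm.pt, hsc, ?_, ?_⟩
        · rw [← Real.log_le_log_iff (nn_pos _) hX20, hlogX2]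
          have := hadm.rad
          rw [← hLd] at this
          linarith
        · obtain ⟨S, hS1, hS2⟩ := hadm.good k hk (lt_of_lt_of_le hl0 hsc.1)
          refine ⟨S, ?_, hS1⟩
          rw [hU, Set.Finite.mem_toFinset]
          show nn S ≤ M
          rw [← Real.log_le_log_iff (nn_pos S) (lt_of_lt_of_le one_pos hM1), hMlog, KR.log_nn]
          exact hS2)
  rw [← hr] at hcount
  obtain ⟨Q, hQ⟩ : ∃ Q : ℝ, Q = (E + 1) * ((3 * N) ^ (3 * r) * n) := ⟨_, rfl⟩
  have hN0 : (1 : ℝ) ≤ N := by exact_mod_cast hN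
  have hn0 : (1 : ℝ) ≤ n := by exact_mod_cast hn
  have hQ1 : 1 ≤ Q := by
    rw [hQ]
    have h1 : (1 : ℝ) ≤ (3 * N) ^ (3 * r) := one_le_pow₀ (by linarith)
    have h2 : (1 : ℝ) ≤ E + 1 := by
      have := Nat.cast_nonneg (α := ℝ) E
      linarith
    have h3 : (1 : ℝ) ≤ (3 * N) ^ (3 * r) * n := by nlinarith
    nlinarith
  have h1 : (F.card : ℝ) ≤ ∑ S ∈ U, (28 * Q * 2 ^ (99 * k * r)) * ((2 : ℝ) ^ (99 * k)) ^ S.card := by
    have h2 : (F.card : ℝ) ≤ ((∑ S ∈ U, 2 ^ (99 * k * (Spl S).card) *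
        (1 + 27 * ((E + 1) * ((3 * N) ^ (3 * r) * n))) : ℕ) : ℝ) := by
      exact_mod_cast hcount
    refine h2.trans ?_
    rw [Nat.cast_sum]
    refine Finset.sum_le_sum fun S _ => ?_
    push_cast
    rw [← hQ, card_Spl, ← hr]
    have e1 : (2 : ℝ) ^ (99 * k * (r + S.card)) = 2 ^ (99 * k * r) * (2 ^ (99 * k)) ^ S.card := by
      rw [mul_add, pow_add, ← pow_mul]
    rw [e1]
    have p0 : (0 : ℝ) < 2 ^ (99 * k * r) * (2 ^ (99 * k)) ^ S.card := by positivity
    calc (2 : ℝ) ^ (99 * k * r) * (2 ^ (99 * k)) ^ S.card * (1 + 27 * Q) ≤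
        2 ^ (99 * k * r) * (2 ^ (99 * k)) ^ S.card * (28 * Q) :=
          mul_le_mul_of_nonneg_left (by linarith) p0.le
      _ = _ := by ring
  rw [← Finset.mul_sum] at h1
  have h2 := hso M hM1 U (fun S hS => by
    rw [hU, Set.Finite.mem_toFinset] at hS
    exact hS)
  have hMk : M ^ (1 + 1 / (k : ℝ)) ≤ Real.exp (2 * c) * X ^ (e + 2 / (k : ℝ)) := by
    have a3 : 1 / (k : ℝ) ≤ 1 / 3 := one_div_le_one_div_of_le (by norm_num) hk3
    have h0 : (0 : ℝ) ≤ 1 / k := by positivity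
    rw [hM, Real.mul_rpow (by positivity) (by positivity), ← Real.exp_mul, ← Real.rpow_mul hX0.le]
    refine mul_le_mul (Real.exp_le_exp.2 (by nlinarith)) ?_ (by positivity) (by positivity)
    refine Real.rpow_le_rpow_of_exponent_le hX ?_
    have a5 : 2 / (k : ℝ) = 2 * (1 / k) := by ring
    rw [a5]
    nlinarith
  -- the bound for `Q`
  have hnL : (n : ℝ) ≤ A * L ^ 2 := by
    refine hnA.trans ?_
    have : L * Real.log l ≤ L ^ 2 := by rw [sq]; exact mul_le_mul_of_nonneg_left hlogL (by linarith)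
    rw [hA]
    have h5 : (0 : ℝ) ≤ 21 + 12 * C := by positivity
    nlinarith
  have hQ2 : Q ≤ 5 * l * ((48 * C * k) ^ (3 * r) * A ^ m * (D2 * X ^ (1 / (k : ℝ)))) := by
    rw [hQ]
    have q1 : (E : ℝ) + 1 ≤ 5 * l := by linarith
    have q2 : ((3 : ℝ) * N) ^ (3 * r) * n = (48 * C * k) ^ (3 * r) * (n : ℝ) ^ m := by
      rw [hNn, hm, pow_succ]
      have : (3 : ℝ) * (16 * C * k * n) = (48 * C * k) * n := by ring
      rw [this, mul_pow]
      ring
    have q3 : (n : ℝ) ^ m ≤ A ^ m * (D2 * X ^ (1 / (k : ℝ))) := by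
      calc (n : ℝ) ^ m ≤ (A * L ^ 2) ^ m := pow_le_pow_left₀ (Nat.cast_nonneg _) hnL m
        _ = A ^ m * L ^ (2 * m) := by rw [mul_pow, ← pow_mul]
        _ ≤ _ := by
            refine mul_le_mul_of_nonneg_left ?_ (by positivity)
            rw [hLd]
            exact hpow X hX
    rw [q2]
    refine mul_le_mul q1 ?_ (by positivity) (by positivity)
    rw [mul_assoc ((48 * (C : ℝ) * k) ^ (3 * r))]
    exact mul_le_mul_of_nonneg_left q3 (by positivity)
  have hXk : X ^ (1 / (k : ℝ)) * X ^ (e + 2 / (k : ℝ)) ≤ X ^ (e + 4 / (k : ℝ)) := by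
    rw [← Real.rpow_add hX0]
    refine Real.rpow_le_rpow_of_exponent_le hX ?_
    have h0 : (0 : ℝ) ≤ 1 / k := by positivity
    have a5 : 2 / (k : ℝ) = 2 * (1 / k) := by ring
    have a6 : 4 / (k : ℝ) = 4 * (1 / k) := by ring
    rw [a5, a6]
    linarith
  have hfinal : (F.card : ℝ) ≤ 28 * 5 * (48 * C * k) ^ (3 * r) * A ^ m * D2 * 2 ^ (99 * k * r) *
      (D1 * Real.exp (2 * c)) * X ^ (e + 4 / (k : ℝ)) * l := by
    calc (F.card : ℝ) ≤ (28 * Q * 2 ^ (99 * k * r)) * (D1 * M ^ (1 + 1 / (k : ℝ))) :=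
          h1.trans (mul_le_mul_of_nonneg_left h2 (by positivity))
      _ ≤ (28 * (5 * l * ((48 * C * k) ^ (3 * r) * A ^ m * (D2 * X ^ (1 / (k : ℝ))))) *
          2 ^ (99 * k * r)) * (D1 * (Real.exp (2 * c) * X ^ (e + 2 / (k : ℝ)))) := by
          refine mul_le_mul ?_ (mul_le_mul_of_nonneg_left hMk hD1.le) (by positivity)
            (by positivity)
          refine mul_le_mul_of_nonneg_right ?_ (by positivity)
          exact mul_le_mul_of_nonneg_left hQ2 (by norm_num)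
      _ = 28 * 5 * (48 * C * k) ^ (3 * r) * A ^ m * D2 * 2 ^ (99 * k * r) *
          (D1 * Real.exp (2 * c)) *
          (X ^ (1 / (k : ℝ)) * X ^ (e + 2 / (k : ℝ))) * l := by ring
      _ ≤ _ := by
          refine mul_le_mul_of_nonneg_right ?_ hl0.le
          exact mul_le_mul_of_nonneg_left hXk (by positivity)
  refine hfinal.trans ?_
  refine mul_le_mul_of_nonneg_right ?_ hl0.le
  refine mul_le_mul_of_nonneg_right ?_ (by positivity)
  linarith

end Pool.Agent.TH876.GR
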